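import Pool.Agent.Lib.MP_acafa7_al.MS.Iface2
import Pool.Agent.Lib.MP_acafa7_al.MS.H94.CYL

/-! Module PushM: push the boundary over a fan (Paper 9.5 (3c)). -/

namespace MSG.H43

open Classical

theorem not_mem_phi {D V : Type} {a : Equiv.Perm V} {M : LMap V D a} {B : Set D}
    (hoff : M.Off B) {d : D} (hd : d ∉ B) : M.φ d ∉ B := by
  intro h
  have h1 := hoff.1 _ h
  have h2 := hoff.1 _ h1
  have h3 := (hoff.2 d hd).1.1
  rw [h3] at h2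
  exact hd h2

theorem pushM (hDel : DelMStatement) (hFan : FanGStatement) (hP : PConnStatement) :
    PushMStatement := by
  intro V X a C K K' hyp 𝒜 o k s hLe hM hF hoo hk hloop hang
  obtain ⟨𝒜', q, rest, hq, hran, hP', hrot, hQ', hε, hcard, -, hlab, -⟩ :=
    hDel V X a C hyp.aut 𝒜 o k s hM.1 hM.2.1 hF hoo hk hloop
  have hann := 𝒜.ok.ann
  have hoff := hann.off
  have hlen := 𝒜.ok.lenok
  -- geometry of the triangles of the fan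
  have hι : ∀ j, j < k → 𝒜.M.φ (𝒜.M.φ (s j)) = 𝒜.M.ι (s (j + 1)) := by
    intro j hj
    rw [hF.next j hj, 𝒜.M.ιι]
  have hℓ : ∀ j, j < k → 𝒜.ℓ (𝒜.M.φ (𝒜.M.φ (s j))) = 𝒜.ℓ (s (j + 1)) := by
    intro j hj
    rw [hι j hj, hlen.2.1]
  have hφ3 : ∀ j, j < k → 𝒜.M.φ (𝒜.M.φ (𝒜.M.φ (s j))) = s j := by
    intro j hj
    exact (hoff.2 _ (hF.tri j hj)).1.1
  have htr : ∀ j, j < k → Tr (𝒜.ℓ (s j)) (𝒜.ℓ (𝒜.M.φ (s j))) (𝒜.ℓ (s (j + 1))) := by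
    intro j hj
    have n0 := hF.tri j hj
    have n1 := not_mem_phi hoff n0
    have n2 := not_mem_phi hoff n1
    have h0 := hlen.2.2 _ n0
    have h1 := hlen.2.2 _ n1
    have h2 := hlen.2.2 _ n2
    rw [hφ3 j hj] at h1 h2
    rw [hℓ j hj] at h0 h1 h2
    exact ⟨hlen.1 _, hlen.1 _, hlen.1 _, by linarith, by linarith, by linarith⟩
  have hfan := hFan k (fun j => 𝒜.ℓ (s j)) (fun j => 𝒜.ℓ (𝒜.M.φ (s j))) hk htr (by
    intro j hj
    have h := hang (j + 1) (by omega) (by omega)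
    have e1 : 𝒜.M.th 𝒜.ℓ (𝒜.M.ι (s (j + 1))) =
        ang (𝒜.ℓ (s (j + 1))) (𝒜.ℓ (𝒜.M.φ (s j))) (𝒜.ℓ (s j)) := by
      rw [← hι j (by omega)]
      unfold DMap.th
      rw [hφ3 j (by omega), hℓ j (by omega)]
    have e2 : 𝒜.M.th 𝒜.ℓ (𝒜.M.φ (s (j + 1))) =
        ang (𝒜.ℓ (𝒜.M.φ (s (j + 1)))) (𝒜.ℓ (s (j + 1))) (𝒜.ℓ (s (j + 2))) := by
      unfold DMap.th
      rw [hφ3 (j + 1) (by omega), hℓ (j + 1) (by omega)]
    rw [e1, e2] at h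
    exact h)
  have hsum : ∑ j ∈ Finset.range k, 𝒜.ℓ (𝒜.M.φ (s j)) ≤ 𝒜.ℓ (s 0) + 𝒜.ℓ (s k) := by
    refine hfan.trans ?_
    have h0 := hlen.1 (s 0)
    have h1 := hlen.1 (s k)
    have c1 := Real.cos_le_one (ang (𝒜.ℓ (𝒜.M.φ (s 0))) (𝒜.ℓ (s 0)) (𝒜.ℓ (s 1)))
    have c2 := Real.cos_le_one
      (ang (𝒜.ℓ (s k)) (𝒜.ℓ (𝒜.M.φ (s (k - 1)))) (𝒜.ℓ (s (k - 1))))
    show 𝒜.ℓ (s 0) * _ + 𝒜.ℓ (s k) * _ ≤ _
    nlinarith
  -- lengths of the boundary lists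
  have hPlen : 𝒜'.P.length = k + rest.length := by
    have := congrArg List.length hP'
    simpa using this
  have hQlen : 𝒜'.Q.length = 𝒜.Q.length := by
    have := congrArg List.length hQ'
    simpa using this
  have hPl : 𝒜.P.length = 2 + rest.length := by
    have := hrot.perm.length_eq
    simp only [List.length_cons] at this
    omega
  have hPQ' : 𝒜'.P.length + 𝒜'.Q.length ≤ Fintype.card 𝒜'.D := by
    have hnd : (𝒜'.P ++ 𝒜'.Q).Nodup := by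
      rw [List.nodup_append]
      refine ⟨𝒜'.ok.ann.faceP.2.1, 𝒜'.ok.ann.faceQ.2.1, ?_⟩
      intro x hx y hy hxy
      subst hxy
      exact 𝒜'.ok.ann.disj x hx hy
    have := hnd.length_le_card
    simpa using this
  refine ⟨𝒜', ⟨?_, ?_⟩, Or.inl ?_, ?_⟩
  · -- length of `P'`
    have e : (𝒜'.P.map 𝒜'.ℓ) = (𝒜'.P.map q).map 𝒜.ℓ := by
      rw [List.map_map]
      refine List.map_congr_left fun x _ => ?_
      exact (hlab x).2.2.2.1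
    rw [e, hP', List.map_append, List.sum_append, List.map_map]
    have e2 : ((List.range k).map (𝒜.ℓ ∘ fun j => 𝒜.M.φ (s j))).sum =
        ∑ j ∈ Finset.range k, 𝒜.ℓ (𝒜.M.φ (s j)) := by
      rw [Finset.sum_range, ← List.sum_ofFn, List.ofFn_eq_map]
      congr 1
      rw [← List.map_coe_finRange_eq_range, List.map_map]
      rfl
    rw [e2]
    have e3 : (𝒜.P.map 𝒜.ℓ).sum = 𝒜.ℓ (𝒜.M.ι (s 0)) + (𝒜.ℓ o + (rest.map 𝒜.ℓ).sum) := by
      rw [← (hrot.perm.map 𝒜.ℓ).sum_eq]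
      simp
    have e4 : 𝒜.ℓ (𝒜.M.ι (s 0)) = 𝒜.ℓ (s 0) := hlen.2.1 _
    have e5 := hLe.1
    rw [e3, e4, ← hF.last] at e5
    linarith
  · have e : (𝒜'.Q.map 𝒜'.ℓ) = (𝒜'.Q.map q).map 𝒜.ℓ := by
      rw [List.map_map]
      refine List.map_congr_left fun x _ => ?_
      exact (hlab x).2.2.2.1
    rw [e, hQ']
    exact hLe.2
  · unfold MA.nt
    omega
  · intro hG p hp r hr
    have hi : 𝒜.M.ι (s 0) ∈ 𝒜.P := hrot.mem_iff.1 (by simp)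
    have hc : 𝒜.M.φ (s 0) ∈ 𝒜'.P.map q := by
      rw [hP', List.mem_append]
      left
      exact List.mem_map.2 ⟨0, List.mem_range.2 hk, rfl⟩
    obtain ⟨p', hp', hpq⟩ := List.mem_map.1 hc
    have hrr : r ∈ 𝒜'.Q.map q := by rw [hQ']; exact hr
    obtain ⟨r', hr', hrq⟩ := List.mem_map.1 hrr
    have h1 := hG p' hp' r' hr'
    rw [(hlab p').2.1, (hlab r').2.1, hpq, hrq] at h1
    -- the label of `φ (s 0)` is a translate of the label of `ι (s 0)`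
    have ht := 𝒜.M.tgt (s 0)
    have hf : 𝒜.M.f (𝒜.M.φ (s 0)) =
        (a ^ (-𝒜.M.h (s 0) + 𝒜.M.γ (s 0))) (𝒜.M.f (𝒜.M.ι (s 0))) := by
      rw [zpow_add, Equiv.Perm.mul_apply, ht, ← Equiv.Perm.mul_apply, ← zpow_add]
      simp
    have h2 := (hP V X a C K K' hyp 𝒜 hLe).1 p hp _ hi (-𝒜.M.h (s 0) + 𝒜.M.γ (s 0))
    rw [← hf] at h2
    exact (H94.cyl V X a hyp.aut hyp.conn K').2.1 _ _ _ h2 h1

end MSG.H43
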